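import Pool.Agent.Lib.helper10.Cr2
import Pool.Agent.Lib.helper10.NPPred

namespace Pool.Agent.Results.MP_c4ab36_lc.InNP

open Pool.Agent.Cx Pool.Agent.Cr Polynomial List

/-- the arity `n`, the generators and the target tuple, as lists of codes -/
abbrev Inst := ℕ × List (List ℕ) × List ℕ

/-- the subpower membership problem of `S`, with elements written by their codes -/
def SMP {S : Type} [Semigroup S] (code : S → ℕ) (z : Inst) : Prop :=
  ∃ (a : List (Fin z.1 → S)) (b : Fin z.1 → S), z.2.1 = a.map (fun x => ofFn fun j => code (x j)) ∧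
    z.2.2 = ofFn (fun j => code (b j)) ∧ b ∈ Subsemigroup.closure {x | x ∈ a}

def ok (tb : List (ℕ × ℕ × ℕ)) (n : ℕ) (G L : List (List ℕ)) (Z : List ℕ) : Prop :=
  Z ∈ G ∨ Z = replicate n 0 ∨ ∃ X ∈ L, ∃ Y ∈ L, Z.length = n ∧
    ¬ ∃ j < n, ¬ (X.getD j 0, Y.getD j 0, Z.getD j 0) ∈ tb

def chk (tb : List (ℕ × ℕ × ℕ)) (n : ℕ) (G L : List (List ℕ)) : Prop :=
  ¬ ∃ i < L.length, ¬ ok tb n G (L.drop (i + 1)) (L.getD i [])

lemma chk_cons {tb n G L Z} : chk tb n G (Z :: L) ↔ ok tb n G L Z ∧ chk tb n G L := by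
  simp only [chk, not_exists, not_and, not_not, length_cons, Nat.forall_lt_succ_left]
  simp

def ver (cs : List ℕ) (tb : List (ℕ × ℕ × ℕ)) (y : Inst × List (List ℕ)) : Prop :=
  ¬ y.1.2.1 = [] ∧ (¬ ∃ x ∈ y.1.2.2 :: y.1.2.1, ¬ (x.length = y.1.1 ∧ ¬ ∃ v ∈ x, ¬ v ∈ cs)) ∧
    chk tb y.1.1 (y.1.2.1.map (map Nat.succ)) y.2 ∧ y.1.2.2.map Nat.succ ∈ y.2

lemma pt_bd (N s h : ℕ) : PT fun z : ℕ × ℕ => bd N s z.1 z.2 h := by
  induction h with
  | zero => exact PT.const 1
  | succ h ih => simp only [bd, bs, c2, c1]; fun_prop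

lemma bd_mono (N s n h : ℕ) {k k' : ℕ} (e : k ≤ k') : bd N s n k h ≤ bd N s n k' h := by
  induction h with
  | zero => rfl
  | succ h ih => simp only [bd, bs, c2, c1]; gcongr

section
variable {S : Type} {code : S → ℕ}

def cd (code : S → ℕ) (x : WithOne S) : ℕ := WithOne.recOneCoe 0 (fun s => code s + 1) x

def tup (code : S → ℕ) {n : ℕ} (y : Fin n → WithOne S) : List ℕ := ofFn fun j => cd code (y j)

def up {n : ℕ} (x : Fin n → S) : Fin n → WithOne S := fun j => x j

lemma cd_inj (hc : code.Injective) : (cd code).Injective := fun x y => by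
  induction x using WithOne.recOneCoe <;> induction y using WithOne.recOneCoe <;>
    simp [cd, hc.eq_iff]

lemma tup_up {n : ℕ} (x : Fin n → S) :
    tup code (up x) = (ofFn fun j => code (x j)).map Nat.succ := by
  simp [tup, up, cd, map_ofFn, Function.comp_def]

lemma tup_one {n : ℕ} : tup code (1 : Fin n → WithOne S) = replicate n 0 := by
  simp [tup, cd]

lemma tup_get {n : ℕ} (y : Fin n → WithOne S) (j : Fin n) : (tup code y).getD j 0 = cd code (y j) := by
  simp [tup, getD_eq_getElem?_getD]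

lemma mem_iff [Semigroup S] {n : ℕ} {a : List (Fin n → S)} {b : Fin n → S} :
    b ∈ Subsemigroup.closure {x | x ∈ a} ↔ a ≠ [] ∧ up b ∈ Submonoid.closure {x | x ∈ a.map up} := by
  constructor
  · intro h
    induction h using Subsemigroup.closure_induction with
    | mem x h => exact ⟨ne_nil_of_mem h, Submonoid.subset_closure (mem_map_of_mem h)⟩
    | mul x y _ _ p q => exact ⟨p.1, mul_mem p.2 q.2⟩
  · rintro ⟨h, g⟩
    have : ∀ y ∈ Submonoid.closure {x | x ∈ a.map up},
        y = 1 ∨ ∃ c ∈ Subsemigroup.closure {x | x ∈ a}, y = up c := fun y hy => by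
      induction hy using Submonoid.closure_induction with
      | mem x h =>
        obtain ⟨c, h', rfl⟩ := mem_map.1 h
        exact Or.inr ⟨c, Subsemigroup.subset_closure h', rfl⟩
      | one => exact Or.inl rfl
      | mul x y _ _ p q =>
        rcases p with rfl | ⟨c, hc, rfl⟩
        · rwa [one_mul]
        rcases q with rfl | ⟨d, hd, rfl⟩
        · exact Or.inr ⟨c, hc, mul_one _⟩
        · exact Or.inr ⟨c * d, mul_mem hc hd, rfl⟩
    rcases this _ g with e | ⟨c, hc, e⟩
    · obtain ⟨c, hc⟩ := exists_mem_of_ne_nil a h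
      rw [show b = c from funext fun j => absurd (congrFun e j) WithOne.coe_ne_one]
      exact Subsemigroup.subset_closure hc
    · rwa [show b = c from funext fun j => WithOne.coe_inj.1 (congrFun e j)]

end

/-- the subpower membership problem of a finite completely regular semigroup is in NP -/
theorem result (S : Type) [Semigroup S] [Finite S]
    (hS : ∀ a : S, ∃ x, a = a * x * a ∧ a * x = x * a) (code : S → ℕ) (hc : code.Injective) :
    InNP (Lang (SMP code)) := by
  classical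
  have := Fintype.ofFinite S
  have : Finite (WithOne S) := inferInstanceAs (Finite (Option S))
  have := Fintype.ofFinite (WithOne S)
  obtain ⟨N, hN⟩ := cheap (S := WithOne S) fun a => by
    induction a using WithOne.recOneCoe with
    | one => exact ⟨1, by simp⟩
    | coe a => obtain ⟨x, h⟩ := hS a; exact ⟨x, by exact_mod_cast h⟩
  obtain ⟨cs, hcs⟩ : ∃ cs : List ℕ, ∀ v, v ∈ cs ↔ ∃ s, code s = v :=
    ⟨Finset.univ.toList.map code, by simp⟩
  obtain ⟨tb, htb⟩ : ∃ tb : List (ℕ × ℕ × ℕ), ∀ v, v ∈ tb ↔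
      ∃ s t : WithOne S, (cd code s, cd code t, cd code (s * t)) = v :=
    ⟨(Finset.univ : Finset (WithOne S × WithOne S)).toList.map
      fun s => (cd code s.1, cd code s.2, cd code (s.1 * s.2)), by simp⟩
  obtain ⟨C, hC⟩ := (Set.finite_range (cd code)).bddAbove
  obtain ⟨u, pu, eu⟩ : PP (ver cs tb) := by unfold ver chk ok; fun_prop
  have pb := (pt_bd N (Nat.card (WithOne S)) (Nat.card (WithOne S))).comp
    (f := fun z : Inst => (z.1, z.2.1.length)) (by fun_prop)
  obtain ⟨p, hp⟩ : ∃ p : ℕ[X], ∀ z : Inst, size (bd N (Nat.card (WithOne S)) z.1 z.2.1.length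
      (Nat.card (WithOne S)) * (z.1 * (2 * C + 1 + 1) + 1 + 1) + 1) ≤ p.eval (size z) :=
    PT.bound (by fun_prop)
  refine inNP_Lang pu p ?_ ?_
  · rintro ⟨n, G, b⟩ ⟨a, b, e1, e2, h⟩
    dsimp only at a b e1 e2 h
    subst e1 e2
    obtain ⟨h0, h⟩ := mem_iff.1 h
    obtain ⟨L, l1, l2, l3⟩ := hN n (a.map up).toFinset (up b) (by simpa using h)
    refine ⟨L.map (tup code), ?_, (eu _).1 ⟨by simpa using h0, ?_, ?_, ?_⟩⟩
    · refine le_trans ?_ (hp _)
      refine (size_list_le _ (n * (2 * C + 1 + 1) + 1) fun x hx => ?_).trans ?_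
      · obtain ⟨y, -, rfl⟩ := mem_map.1 hx
        refine (size_list_le _ (2 * C + 1) fun v hv => ?_).trans (by simp [tup])
        obtain ⟨j, rfl⟩ := mem_ofFn.1 hv
        have := hC ⟨y j, rfl⟩
        rw [size_nat]; omega
      · have := l2.trans (bd_mono _ _ _ _ ((toFinset_card_le _).trans_eq (length_map _)))
        have := Nat.mul_le_mul_right (n * (2 * C + 1 + 1) + 1 + 1) this
        simp only [size_nat, length_map] at *
        omega
    · rintro ⟨x, hx, g⟩
      rw [← map_cons (f := fun x : Fin n → S => ofFn fun j => code (x j))] at hx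
      obtain ⟨y, -, rfl⟩ := mem_map.1 hx
      simp [hcs] at g
    · clear l2 l3
      induction l1 with
      | nil => simp [chk]
      | gen g _ ih =>
        refine chk_cons.2 ⟨?_, ih⟩
        rcases g with g | rfl
        · obtain ⟨c, hc, rfl⟩ := mem_map.1 (mem_toFinset.1 g)
          exact Or.inl (tup_up c ▸ mem_map_of_mem (mem_map_of_mem hc))
        · exact Or.inr (Or.inl tup_one)
      | @mul x y _ p q _ ih =>
        refine chk_cons.2 ⟨Or.inr (Or.inr ⟨_, mem_map_of_mem p, _, mem_map_of_mem q,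
          by simp [tup], ?_⟩), ih⟩
        rintro ⟨j, hj, g⟩
        exact g ((htb _).2 ⟨x ⟨j, hj⟩, y ⟨j, hj⟩, by
          rw [tup_get x ⟨j, hj⟩, tup_get y ⟨j, hj⟩, tup_get (x * y) ⟨j, hj⟩]; rfl⟩)
    · exact tup_up b ▸ mem_map_of_mem l3
  · rintro ⟨n, G, b⟩ L h
    obtain ⟨h0, h1, h2, h3⟩ := (eu _).2 h
    dsimp only at h0 h1 h2 h3
    have : ∀ x ∈ b :: G, ∃ y : Fin n → S, x = ofFn fun j => code (y j) := fun x hx => by
      obtain ⟨rfl, g⟩ : x.length = n ∧ ∀ v ∈ x, ∃ s, code s = v := by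
        simpa [hcs] using not_not.1 fun g => h1 ⟨x, hx, g⟩
      choose y hy using fun j : Fin x.length => g x[j] (getElem_mem _)
      exact ⟨y, by simp [hy]⟩
    obtain ⟨⟨b, rfl⟩, g⟩ := forall_mem_cons.1 this
    obtain ⟨a, rfl⟩ : ∃ a : List (Fin n → S), G = a.map fun x => ofFn fun j => code (x j) := by
      clear h0 h1 h2 h this h3
      induction G with
      | nil => exact ⟨[], rfl⟩
      | cons x G ih =>
        obtain ⟨⟨y, rfl⟩, g'⟩ := forall_mem_cons.1 g
        obtain ⟨a, rfl⟩ := ih g'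
        exact ⟨y :: a, rfl⟩
    refine ⟨a, b, rfl, rfl, mem_iff.2 ⟨by simpa using h0, ?_⟩⟩
    have key : ∀ Z ∈ L, ∃ y ∈ Submonoid.closure {x | x ∈ a.map up}, Z = tup code y := by
      clear h3 h
      induction L with
      | nil => simp
      | cons Z L ih =>
        obtain ⟨o, c⟩ := chk_cons.1 h2
        have ih := ih c
        refine forall_mem_cons.2 ⟨?_, ih⟩
        rcases o with o | rfl | ⟨X, hX, Y, hY, o1, o2⟩
        · simp only [map_map, mem_map] at o
          obtain ⟨c, hc, rfl⟩ := o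
          exact ⟨up c, Submonoid.subset_closure (mem_map_of_mem hc), (tup_up c).symm⟩
        · exact ⟨1, one_mem _, tup_one.symm⟩
        · obtain ⟨x, hx, rfl⟩ := ih X hX
          obtain ⟨y, hy, rfl⟩ := ih Y hY
          refine ⟨x * y, mul_mem hx hy, ext_getElem (by simpa [tup] using o1) fun j hj _ => ?_⟩
          have hn : j < n := o1 ▸ hj
          obtain ⟨s, t, e⟩ := (htb _).1 (not_not.1 fun g => o2 ⟨j, hn, g⟩)
          rw [tup_get x ⟨j, hn⟩, tup_get y ⟨j, hn⟩, getD_eq_getElem _ _ hj] at e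
          simp only [Prod.mk.injEq, (cd_inj hc).eq_iff] at e
          simp [tup, ← e.1, ← e.2.1, ← e.2.2]
    obtain ⟨y, hy, e⟩ := key _ h3
    rw [← tup_up] at e
    rwa [show up b = y from funext fun j => cd_inj hc (congrFun (ofFn_injective e) j)]

end Pool.Agent.Results.MP_c4ab36_lc.InNP
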